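import Mathlib

set_option autoImplicit false

namespace Pool.Agent.Results.MP_bedf46_an.Attractor

/-- Majority of three bits. -/
def maj (a b c : Bool) : Bool := (a && b) || (a && c) || (b && c)

/-- The 2-line voting on `V = ℤ × {1, -1}`; the set `{1, -1}` is the unit group `ℤˣ`. -/
def F (y : ℤ × ℤˣ → Bool) (v : ℤ × ℤˣ) : Bool :=
  maj (y (v.1 - 2 * (v.2 : ℤ), v.2)) (y (v.1 - (v.2 : ℤ), v.2)) (y (v.1, -v.2))

/-- Every finite perturbation has a trajectory differing at finitely many space-time points. -/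
def IsAttractor (s : ℤ × ℤˣ → Bool) : Prop :=
  ∀ s' : ℤ × ℤˣ → Bool, {v | s' v ≠ s v}.Finite →
    {p : (ℤ × ℤˣ) × ℕ | F^[p.2] s' p.1 ≠ F^[p.2] s p.1}.Finite

lemma maj_ne (a b d c : Bool) (h : maj a b d ≠ c) :
    (a ≠ c ∧ b ≠ c) ∨ (a ≠ c ∧ d ≠ c) ∨ (b ≠ c ∧ d ≠ c) := by
  revert a b d c; decide

lemma F_top (y : ℤ × ℤˣ → Bool) (i : ℤ) :
    F y (i, 1) = maj (y (i - 2, 1)) (y (i - 1, 1)) (y (i, -1)) := by simp [F]

lemma F_bot (y : ℤ × ℤˣ → Bool) (i : ℤ) :
    F y (i, -1) = maj (y (i + 2, -1)) (y (i + 1, -1)) (y (i, 1)) := by simp [F]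

lemma local_dep (t : ℕ) (y y' : ℤ × ℤˣ → Bool) (lo hi : ℤ)
    (h : ∀ i j, lo ≤ i → i ≤ hi → y (i, j) = y' (i, j)) :
    ∀ i j, lo + 2 * t ≤ i → i ≤ hi - 2 * t → F^[t] y (i, j) = F^[t] y' (i, j) := by
  induction t with
  | zero => intro i j h1 h2; exact h i j (by simpa using h1) (by simpa using h2)
  | succ t ih =>
    intro i j h1 h2
    push_cast at h1 h2
    rw [Function.iterate_succ_apply', Function.iterate_succ_apply']
    rcases Int.units_eq_one_or j with rfl | rfl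
    · rw [F_top, F_top, ih _ _ (by omega) (by omega), ih (i - 1) _ (by omega) (by omega),
        ih i _ (by omega) (by omega)]
    · rw [F_bot, F_bot, ih _ _ (by omega) (by omega), ih (i + 1) _ (by omega) (by omega),
        ih i _ (by omega) (by omega)]

lemma phase1 (y : ℤ × ℤˣ → Bool) (c : Bool) (R : ℤ)
    (h : ∀ i j, y (i, j) ≠ c → -R ≤ i ∧ i ≤ R) (t : ℕ) :
    (∀ i, F^[t] y (i, 1) ≠ c → -R + t ≤ i ∧ i ≤ R + t) ∧
    (∀ i, F^[t] y (i, -1) ≠ c → -R - t ≤ i ∧ i ≤ R - t) := by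
  induction t with
  | zero => exact ⟨fun i hi => by simpa using h i 1 hi, fun i hi => by simpa using h i (-1) hi⟩
  | succ t ih =>
    obtain ⟨h1, h2⟩ := ih
    rw [Function.iterate_succ_apply']
    push_cast
    constructor
    · intro i hi
      rw [F_top] at hi
      rcases maj_ne _ _ _ _ hi with ⟨a, b⟩ | ⟨a, b⟩ | ⟨a, b⟩
      · have := h1 _ a; have := h1 _ b; omega
      · have := h1 _ a; have := h2 _ b; omega
      · have := h1 _ a; have := h2 _ b; omega
    · intro i hi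
      rw [F_bot] at hi
      rcases maj_ne _ _ _ _ hi with ⟨a, b⟩ | ⟨a, b⟩ | ⟨a, b⟩
      · have := h2 _ a; have := h2 _ b; omega
      · have := h2 _ a; have := h1 _ b; omega
      · have := h2 _ a; have := h1 _ b; omega

lemma phase2 (y : ℤ × ℤˣ → Bool) (c : Bool) (R : ℕ)
    (h : ∀ i j, y (i, j) ≠ c → -(R : ℤ) ≤ i ∧ i ≤ R) (d : ℕ) :
    (∀ i, F^[R + d] y (i, 1) ≠ c → 2 * d ≤ i ∧ i ≤ 2 * R + d) ∧
    (∀ i, F^[R + d] y (i, -1) ≠ c → -2 * R - d ≤ i ∧ i ≤ -2 * d) := by
  induction d with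
  | zero =>
    obtain ⟨h1, h2⟩ := phase1 y c R h R
    exact ⟨fun i hi => by have := h1 i hi; push_cast; omega,
      fun i hi => by have := h2 i hi; push_cast; omega⟩
  | succ t ih =>
    obtain ⟨h1, h2⟩ := ih
    rw [← add_assoc, Function.iterate_succ_apply']
    push_cast
    constructor
    · intro i hi
      rw [F_top] at hi
      rcases maj_ne _ _ _ _ hi with ⟨a, b⟩ | ⟨a, b⟩ | ⟨a, b⟩
      · have := h1 _ a; have := h1 _ b; omega
      · have := h1 _ a; have := h2 _ b; omega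
      · have := h1 _ a; have := h2 _ b; omega
    · intro i hi
      rw [F_bot] at hi
      rcases maj_ne _ _ _ _ hi with ⟨a, b⟩ | ⟨a, b⟩ | ⟨a, b⟩
      · have := h2 _ a; have := h2 _ b; omega
      · have := h2 _ a; have := h1 _ b; omega
      · have := h2 _ a; have := h1 _ b; omega

lemma erode (y : ℤ × ℤˣ → Bool) (c : Bool) (R : ℕ)
    (h : ∀ i j, y (i, j) ≠ c → -(R : ℤ) ≤ i ∧ i ≤ R) (i : ℤ) (j : ℤˣ) :
    F^[R + (2 * R + 1)] y (i, j) = c := by
  obtain ⟨h1, h2⟩ := phase2 y c R h (2 * R + 1)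
  by_contra hc
  rcases Int.units_eq_one_or j with rfl | rfl
  · have := h1 i hc; push_cast at this; omega
  · have := h2 i hc; push_cast at this; omega

def s0 (v : ℤ × ℤˣ) : Bool := decide (Nat.log 20 v.1.natAbs % 2 = 0)

lemma near (y : ℤ × ℤˣ → Bool) (c : Bool) (R : ℕ)
    (h : ∀ (i : ℤ) j, R < i.natAbs → i.natAbs ≤ 13 * R + 4 → y (i, j) = c) (i : ℤ) (j : ℤˣ)
    (hi : i.natAbs ≤ 7 * R + 2) : F^[R + (2 * R + 1)] y (i, j) = c := by
  let y' : ℤ × ℤˣ → Bool := fun v => if v.1.natAbs ≤ R then y v else c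
  rw [local_dep _ y y' (-(13 * R + 4)) (13 * R + 4) ?_ i j (by push_cast; omega)
    (by push_cast; omega)]
  · apply erode
    intro i j hij
    by_contra hc
    apply hij
    simp only [y']
    rw [if_neg (by omega)]
  · intro i j h1 h2
    simp only [y']
    split_ifs with h3
    · rfl
    · exact h i j (by omega) (by omega)

lemma far (y y' : ℤ × ℤˣ → Bool) (R t : ℕ)
    (h : ∀ (i : ℤ) j, R < i.natAbs → y (i, j) = y' (i, j)) (i : ℤ) (j : ℤˣ)
    (hi : R + 2 * t < i.natAbs) : F^[t] y (i, j) = F^[t] y' (i, j) :=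
  local_dep t y y' (i - 2 * t) (i + 2 * t) (fun i' j' h1 h2 => h i' j' (by omega)) i j
    (by omega) (by omega)

lemma s0_attr : IsAttractor s0 := by
  intro s' hs'
  obtain ⟨k, hk⟩ : ∃ k : ℕ, ∀ v, s' v ≠ s0 v → v.1.natAbs ≤ k := by
    obtain ⟨k, hk⟩ := (hs'.image fun v => v.1.natAbs).bddAbove
    exact ⟨k, fun v hv => hk ⟨v, hv, rfl⟩⟩
  set R := 20 ^ k with hR
  have hkR : k < R := Nat.lt_pow_self (by norm_num)
  have hout : ∀ (i : ℤ) j, R < i.natAbs → s' (i, j) = s0 (i, j) := by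
    intro i j hi
    by_contra hc
    have := hk _ hc
    simp only at this
    omega
  have hc : ∀ (i : ℤ) j, R < i.natAbs → i.natAbs ≤ 13 * R + 4 →
      s0 (i, j) = decide (k % 2 = 0) := by
    intro i j h1 h2
    have : Nat.log 20 i.natAbs = k := by
      apply Nat.log_eq_of_pow_le_of_lt_pow (by omega)
      rw [pow_succ]; omega
    simp [s0, this]
  have hτ : F^[R + (2 * R + 1)] s' = F^[R + (2 * R + 1)] s0 := by
    ext ⟨i, j⟩
    rcases le_or_gt i.natAbs (7 * R + 2) with hi | hi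
    · rw [near s0 _ R hc i j hi,
        near s' _ R (fun i j h1 h2 => (hout i j h1).trans (hc i j h1 h2)) i j hi]
    · exact far _ _ R _ hout i j (by omega)
  refine (((Set.finite_Icc (-(7 * R + 2 : ℤ)) (7 * R + 2)).prod Set.finite_univ).prod
    (Set.finite_Iio (R + (2 * R + 1)))).subset ?_
  rintro ⟨⟨i, j⟩, t⟩ h
  simp only [Set.mem_ofPred_eq] at h
  have ht : t < R + (2 * R + 1) := by
    by_contra hc
    obtain ⟨d, rfl⟩ := Nat.exists_eq_add_of_le' (not_lt.mp hc)
    rw [Function.iterate_add_apply, Function.iterate_add_apply F d, hτ] at h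
    exact h rfl
  have hi : i.natAbs ≤ 7 * R + 2 := by
    by_contra hc
    exact h (far _ _ R _ hout i j (by omega))
  simp only [Set.mem_prod, Set.mem_Icc, Set.mem_univ, and_true, Set.mem_Iio]
  omega

lemma s0_pow (k : ℕ) : s0 ((20 ^ k : ℕ), 1) = decide (k % 2 = 0) := by
  simp only [s0, Int.natAbs_natCast, Nat.log_pow (show 1 < 20 by norm_num)]

theorem result : ∃ s : ℤ × ℤˣ → Bool, IsAttractor s ∧
    ¬ {v | s v ≠ false}.Finite ∧ ¬ {v | s v ≠ true}.Finite := by
  have hinj : Function.Injective fun k : ℕ => ((((20 ^ k : ℕ) : ℤ), 1) : ℤ × ℤˣ) := by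
    intro a b h
    simp only [Prod.mk.injEq, Nat.cast_inj, and_true] at h
    exact Nat.pow_right_injective (by norm_num) h
  refine ⟨s0, s0_attr, ?_, ?_⟩
  · refine Set.infinite_of_injective_forall_mem
      (hinj.comp (show Function.Injective fun k : ℕ => 2 * k from fun a b h => by
        simp only at h; omega)) fun k => ?_
    simp only [Function.comp, Set.mem_ofPred_eq, s0_pow]
    simp
  · refine Set.infinite_of_injective_forall_mem
      (hinj.comp (show Function.Injective fun k : ℕ => 2 * k + 1 from fun a b h => by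
        simp only at h; omega)) fun k => ?_
    simp only [Function.comp, Set.mem_ofPred_eq, s0_pow]
    simp

end Pool.Agent.Results.MP_bedf46_an.Attractor
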